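import Pool.Agent.Helper75.Torus.Final
import Pool.Agent.Helper94.Torus.COF
import Pool.Agent.Helper25.Torus.Alg
import Pool.Agent.Helper60.Torus.BETA1
import Pool.Agent.Helper11.Torus.Beta2
import Pool.Agent.Helper56.Torus.Area
import Pool.Agent.Helper96.Torus.LIN
import Pool.Agent.Helper26.Torus.Contra
import Pool.Agent.Helper86.Torus.BUMP
import Pool.Agent.Helper5.Torus.T1A
import Pool.Agent.Helper49.Torus.T1B
import Pool.Agent.Helper77.Torus.OSC
import Pool.Agent.Helper90.Torus.RL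
import Pool.Agent.Helper85.Torus.CONVT
import Pool.Agent.Helper73.Torus.EV
import Pool.Agent.Helper89.Torus.EVD
import Pool.Agent.Helper65.Torus.EVB
import Pool.Agent.Helper83.Torus.EVO
import Pool.Agent.Helper67.Torus.PB
import Pool.Agent.Helper32.Torus.CURLP
import Pool.Agent.Helper8.Torus.V0
import Pool.Agent.Helper6.Torus.SGN
import Pool.Agent.Helper57.Torus.SGI
import Pool.Agent.Helper3.Torus.RelA
import Pool.Agent.Helper45.Torus.EXACT

/-! # Torus: assembly of the packets -/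

set_option autoImplicit false

namespace Pool.Agent.Helper75.Torus

theorem hCOF : G_COF := Pool.Agent.Helper94.Torus.thm
theorem hALG : G_ALG := Pool.Agent.Helper25.Torus.thm hCOF
theorem hBETA1 : G_BETA1 := Pool.Agent.Helper60.TorusBETA1.thm hCOF
theorem hBETA2 : G_BETA2 := Pool.Agent.Helper11.Torus.thm
theorem hAREA : G_AREA := Pool.Agent.Helper56.Torus.area hBETA1 hBETA2 hCOF
theorem hLIN : G_LIN := Pool.Agent.Helper96.Torus.thm hCOF
theorem hTRANS : G_TRANS := Pool.Agent.Helper26.Torus.thmTrans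
theorem hCONTRA : G_CONTRA := Pool.Agent.Helper26.Torus.thm hBETA1 hCOF
theorem hBUMP : G_BUMP := Pool.Agent.Helper86.Torus.thm
theorem hT1A : G_T1A := Pool.Agent.Helper5.Torus.thm
theorem hT1B : G_T1B := Pool.Agent.Helper49.Torus.thm hT1A
theorem hOSC : G_OSC := Pool.Agent.Helper77.Torus.OSC.thm
theorem hRL : G_RL := Pool.Agent.Helper90.TorusRL.thm
theorem hCONVT : G_CONVT := Pool.Agent.Helper85.Torus.thm
theorem hEV : G_EV := Pool.Agent.Helper73.Torus.thm hCOF
theorem hEVD : G_EVD := Pool.Agent.Helper89.TorusEVD.thm hEV hT1A hT1B hALG hBETA2 hCOF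
theorem hEVB : G_EVB := Pool.Agent.Helper65.Torus.evb hOSC hT1A
theorem hEVO : G_EVO := Pool.Agent.Helper83.Torus.EVO.thm hCOF hEVD hEVB
theorem hPB : G_PB := Pool.Agent.Helper67.Torus.thm hOSC hT1A hT1B hCOF
theorem hCURLP : G_CURLP := Pool.Agent.Helper32.Torus.Curlp.thm hT1A
theorem hV0 : G_V0 := Pool.Agent.Helper8.Torus.thm
theorem hSGN : G_SGN := Pool.Agent.Helper6.Torus.thm hT1A hT1B
theorem hSGI : G_SGI := Pool.Agent.Helper57.Torus.thm hRL hT1A
theorem hSGT : G_SGT := Pool.Agent.Helper57.Torus.thmT hRL hT1A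
theorem hRELA : G_RELA :=
  Pool.Agent.Helper3.Torus.thm hEVO hPB hSGN hSGI hSGT hBETA2 hCOF hT1A
theorem hEXACT : G_EXACT :=
  Pool.Agent.Helper45.Torus.exact_thm hEVO hPB hSGN hSGI hCURLP hBETA2 hTRANS hT1A

end Pool.Agent.Helper75.Torus
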