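import Mathlib

set_option autoImplicit false

open Set

namespace Pool.Agent.Helper75.Torus

/-- Points and vectors of three-space; `‖x‖` is the maximum norm. -/
abbrev E := Fin 3 → ℝ

/-- The `j`-th partial derivative. -/
noncomputable def pd (j : Fin 3) (f : E → ℝ) (x : E) : ℝ := fderiv ℝ f x (Pi.single j 1)

/-- `f` is periodic with period `2π` in every coordinate: it is a function on the flat torus
`(ℝ/2πℤ)³`. -/
def Per (f : E → ℝ) : Prop := ∀ x, ∀ j : Fin 3, f (x + Pi.single j (2 * Real.pi)) = f x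

/-- `v` and `w` are at distance at most `r` in the `C^{1,α}` norm (supremum of all components, of
all their first partial derivatives, and of the `α`-Hölder quotients of these derivatives). -/
def Close (α r : ℝ) (v w : E → E) : Prop :=
  ∀ i x, |v x i - w x i| ≤ r ∧ ∀ j, |pd j (fun z => v z i) x - pd j (fun z => w z i) x| ≤ r ∧
    ∀ y, |(pd j (fun z => v z i) x - pd j (fun z => w z i) x) -
      (pd j (fun z => v z i) y - pd j (fun z => w z i) y)| ≤ r * ‖x - y‖ ^ α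

/-- `v` is a divergence-free vector field of class `C^{1,α}` on the flat torus. -/
def IsVelocity (α : ℝ) (v : E → E) : Prop :=
  (∀ i, ContDiff ℝ 1 (fun x => v x i)) ∧ (∀ i, Per (fun x => v x i)) ∧
  (∃ C : ℝ, Close α C v 0) ∧ ∀ x, ∑ i, pd i (fun z => v z i) x = 0

/-- `u` is a solution on `[0,t]` of the incompressible Euler equations on the flat torus, bounded in
`C^{1,α}`. -/
def IsEulerSolution (α t : ℝ) (u : ℝ → E → E) : Prop :=
  (∀ s ∈ Icc 0 t, IsVelocity α (u s)) ∧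
  (∃ C : ℝ, ∀ s ∈ Icc 0 t, Close α C (u s) 0) ∧
  (∀ i, ContinuousOn (fun z : ℝ × E => u z.1 z.2 i) (Icc 0 t ×ˢ univ)) ∧
  (∀ i j, ContinuousOn (fun z : ℝ × E => pd j (fun x => u z.1 x i) z.2) (Icc 0 t ×ˢ univ)) ∧
  ∃ p : ℝ → E → ℝ,
    (∀ s ∈ Icc 0 t, ContDiff ℝ 2 (p s) ∧ Per (p s)) ∧
    (∀ i, ContinuousOn (fun z : ℝ × E => pd i (p z.1) z.2) (Icc 0 t ×ˢ univ)) ∧
    (∀ i j, ContinuousOn (fun z : ℝ × E => pd j (pd i (p z.1)) z.2) (Icc 0 t ×ˢ univ)) ∧
    ∀ s ∈ Icc 0 t, ∀ x, ∀ i, HasDerivWithinAt (fun τ => u τ x i)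
      (-(∑ j, u s x j * pd j (fun y => u s y i) x) - pd i (p s) x) (Icc 0 t) s

end Pool.Agent.Helper75.Torus
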