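import Pool.Agent.Helper75.Torus.Goals
import Pool.Agent.Helper75.Slab.All

set_option autoImplicit false

open Set MeasureTheory Matrix

namespace Pool.Agent.Helper75.Torus

open Pool.Agent.Helper75.Flow (LipField IsFlow IsJac EulerOn curlL)
open Pool.Agent.Helper75.Slab (hFL1 hFL2 hFD hDET hVORT)

theorem lagt (hCONVT : G_CONVT) : G_LAGT := by
  intro α t u hα hα1 ht hu
  obtain ⟨K, g, p, hE, hp, hhol⟩ := hCONVT α t u hα hα1 ht hu
  have hE' := hE
  obtain ⟨_, hLip, hOo, hdiff, hcontD, hdiv, -, -, -, -, -⟩ := hE'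
  obtain ⟨φ, hφ⟩ := hFL1 t K u ht hLip
  obtain ⟨hlip, hcont, -, hdisp⟩ := hFL2 t K u φ ht hLip hφ
  obtain ⟨J, hJ, hJc, hJb⟩ := hFD t K u φ univ ht hLip hφ isOpen_univ
    (fun X _ s _ => mem_univ _) hdiff hcontD
  have hJdet : ∀ X, ∀ s ∈ Icc (0 : ℝ) t, (J s X).det = 1 := by
    intro X
    apply hDET t (fun s => fderiv ℝ (u s) (φ s X)) (fun s => J s X) ht _ (hJ X (mem_univ X)).1
      (fun s hs => ((hJ X (mem_univ X)).2 s hs).2)
    · intro s hs
      exact hdiv s hs _ (mem_univ _)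
    · have hc : ContinuousOn (fun s => ((s, φ s X) : ℝ × E)) (Icc 0 t) := by
        apply ContinuousOn.prodMk continuousOn_id
        intro s hs
        exact (hφ.2 X s hs).continuousWithinAt
      exact hcontD.comp hc (fun s hs => ⟨hs, mem_univ _⟩)
  have hvort := hVORT t K u g φ univ J hE hφ (fun X _ s _ => mem_univ _) hJ hJc
    (fun X _ => hJdet X)
  exact ⟨K, g, p, φ, J, ⟨hE, hp, hhol, hφ, hJ, hJc, hJdet, fun X => hvort X (mem_univ X)⟩⟩

theorem hol_of_close {α r : ℝ} {v w : E → E} (hv : ∀ i, ContDiff ℝ 1 (fun x => v x i))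
    (hw : ∀ i, ContDiff ℝ 1 (fun x => w x i)) (h : Close α r v w) (i : Fin 3) :
    Hol α r (fun z => v z i - w z i) := by
  have hpd : ∀ j x, pd j (fun z => v z i - w z i) x =
      pd j (fun z => v z i) x - pd j (fun z => w z i) x := by
    intro j x
    unfold pd
    rw [fderiv_fun_sub ((hv i).differentiable one_ne_zero x) ((hw i).differentiable one_ne_zero x)]
    rfl
  refine ⟨(hv i).sub (hw i), ?_⟩
  intro x y j
  rw [hpd, hpd]
  exact ((h i x).2 j).2 y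

theorem nn_sq (v : E) : nn v ^ 2 = v ⬝ᵥ v := by
  unfold nn
  rw [Real.sq_sqrt]
  simp only [dotProduct, Fin.sum_univ_three]
  nlinarith [sq_nonneg (v 0), sq_nonneg (v 1), sq_nonneg (v 2)]

theorem nn_nonneg (v : E) : 0 ≤ nn v := Real.sqrt_nonneg _

theorem dotE (a b : E) : a ⬝ᵥ b = a 0 * b 0 + a 1 * b 1 + a 2 * b 2 := by
  simp only [dotProduct, Fin.sum_univ_three]

/-- the two polarizations of a class -/
theorem pols (r : ℕ) (hr : r = 0 ∨ r = 2 ∨ r = 4 ∨ r = 6) (b : E) (hb : kap r ⬝ᵥ b = 0) :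
    nn b ^ 2 = (pol r ⬝ᵥ b) ^ 2 + (pol (r + 1) ⬝ᵥ b) ^ 2 := by
  rw [nn_sq]
  have hb' : dir r ⬝ᵥ b = 0 := by
    have h2 : kap r ⬝ᵥ b = (nn (dir r))⁻¹ * (dir r ⬝ᵥ b) := by
      simp [kap, smul_dotProduct]
    rw [h2] at hb
    rcases mul_eq_zero.1 hb with h | h
    · exfalso
      have hn : nn (dir r) ≠ 0 := by
        intro h0
        have := nn_sq (dir r)
        rw [h0, dotE] at this
        rcases hr with rfl | rfl | rfl | rfl <;> simp [dir] at this <;> norm_num at this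
      exact (inv_ne_zero hn) h
    · exact h
  have s2 : Real.sqrt 2 ^ 2 = 2 := Real.sq_sqrt (by norm_num)
  have s6 : Real.sqrt 6 ^ 2 = 6 := Real.sq_sqrt (by norm_num)
  have p2 : (0 : ℝ) < Real.sqrt 2 := by positivity
  have p6 : (0 : ℝ) < Real.sqrt 6 := by positivity
  rw [dotE] at hb' ⊢
  rw [dotE, dotE]
  rcases hr with rfl | rfl | rfl | rfl
  · simp [dir] at hb'
    simp [pol, hb']
    ring
  · simp [dir] at hb'
    simp [pol, hb']
    ring
  · simp [dir] at hb'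
    simp [pol, hb']
    ring
  · have hb2 : b 2 = -b 0 - b 1 := by
      simp [dir] at hb'
      linarith
    have e1 : (pol 6 0 * b 0 + pol 6 1 * b 1 + pol 6 2 * b 2) ^ 2 = (b 0 - b 1) ^ 2 / 2 := by
      have : pol 6 0 * b 0 + pol 6 1 * b 1 + pol 6 2 * b 2 = (b 0 - b 1) / Real.sqrt 2 := by
        simp [pol]
        field_simp
        ring
      rw [this, div_pow, s2]
    have e2 : (pol (6 + 1) 0 * b 0 + pol (6 + 1) 1 * b 1 + pol (6 + 1) 2 * b 2) ^ 2 =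
        (b 0 + b 1 - 2 * b 2) ^ 2 / 6 := by
      have : pol (6 + 1) 0 * b 0 + pol (6 + 1) 1 * b 1 + pol (6 + 1) 2 * b 2 =
          (b 0 + b 1 - 2 * b 2) / Real.sqrt 6 := by
        simp [pol]
        field_simp
        ring
      rw [this, div_pow, s6]
    rw [e1, e2, hb2]
    ring

theorem kap_ee (i : ℕ) (hi : i = 0 ∨ i = 2 ∨ i = 4 ∨ i = 6) :
    ∃ d : E, (d = ee 0 ∨ d = ee 1 ∨ d = ee 2 ∨ d = ee 0 + ee 1 + ee 2) ∧ dir i = d := by
  rcases hi with rfl | rfl | rfl | rfl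
  · refine ⟨ee 0, Or.inl rfl, ?_⟩
    funext k; fin_cases k <;> simp [dir, ee]
  · refine ⟨ee 1, Or.inr (Or.inl rfl), ?_⟩
    funext k; fin_cases k <;> simp [dir, ee]
  · refine ⟨ee 2, Or.inr (Or.inr (Or.inl rfl)), ?_⟩
    funext k; fin_cases k <;> simp [dir, ee]
  · refine ⟨ee 0 + ee 1 + ee 2, Or.inr (Or.inr (Or.inr rfl)), ?_⟩
    funext k; fin_cases k <;> simp [dir, ee]

theorem dir_cases (d : E) (hd : d = ee 0 ∨ d = ee 1 ∨ d = ee 2 ∨ d = ee 0 + ee 1 + ee 2) :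
    ∃ r, (r = 0 ∨ r = 2 ∨ r = 4 ∨ r = 6) ∧ dir r = d := by
  rcases hd with rfl | rfl | rfl | rfl
  · refine ⟨0, by tauto, ?_⟩
    funext k; fin_cases k <;> simp [dir, ee]
  · refine ⟨2, by tauto, ?_⟩
    funext k; fin_cases k <;> simp [dir, ee]
  · refine ⟨4, by tauto, ?_⟩
    funext k; fin_cases k <;> simp [dir, ee]
  · refine ⟨6, by tauto, ?_⟩
    funext k; fin_cases k <;> simp [dir, ee]

theorem kap_succ (r : ℕ) (hr : r = 0 ∨ r = 2 ∨ r = 4 ∨ r = 6) : kap (r + 1) = kap r := by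
  rcases hr with rfl | rfl | rfl | rfl <;> simp [kap, dir]

theorem kap_unit (r : ℕ) (hr : r = 0 ∨ r = 2 ∨ r = 4 ∨ r = 6) : kap r ⬝ᵥ kap r = 1 := by
  have hn : nn (dir r) ≠ 0 := by
    intro h0
    have := nn_sq (dir r)
    rw [h0, dotE] at this
    rcases hr with rfl | rfl | rfl | rfl <;> simp [dir] at this <;> norm_num at this
  unfold kap
  rw [smul_dotProduct, dotProduct_smul, ← nn_sq]
  simp only [smul_eq_mul]
  field_simp

/-- the four directions are either fixed or strongly contracted -/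
theorem stepA (hAREA : G_AREA) (hCOF : G_COF) {α : ℝ} {η : E → ℝ} (hα : 0 < α)
    (hη : 0 < ∫ Y, η Y) {C₀ : ℝ} (hC₀ : 0 < C₀) {t : ℝ} (ht : 0 ≤ t) {J : ℝ → E →L[ℝ] E}
    (hJc : ContinuousOn J (Icc 0 t)) (hJd : ∀ s ∈ Icc 0 t, (J s).det = 1) {ε : ℝ} (hε : 0 < ε)
    (hε' : 32 * C₀ * ε ≤ ∫ Y, η Y) (r : ℕ) (hr : r = 0 ∨ r = 2 ∨ r = 4 ∨ r = 6) (c : ℝ)
    (hrel : ∀ q, (q = r ∨ q = r + 1) → ∀ β, IsBeta t J (kap q) c β →
      (1 / 2) * |pol q ⬝ᵥ β 0| * ∫ Y, η Y ≤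
        C₀ * ε * (nn (β 0) + nn (J t (β t)) * (nn (cofv (J t) (kap q))) ^ (-(1 + α)))) 
    (hα1 : α < 1) : nn (cofv (J t) (kap r)) ≤ 1 / 2 := by
  have htt : t ∈ Icc (0 : ℝ) t := ⟨ht, le_rfl⟩
  set I := ∫ Y, η Y with hI
  set k := nn (cofv (J t) (kap r)) with hk
  have hkpos : 0 < k := by
    apply (hCOF (J t) (hJd t htt)).2.2.2.2.2.2.2
    intro h0
    have := kap_unit r hr
    rw [h0] at this
    simp at this
  have hkr : 0 < k ^ (1 + α) := Real.rpow_pos_of_pos hkpos _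
  set m := I / (8 * C₀ * ε) * k ^ (1 + α) with hm
  have hm0 : 0 ≤ m := by positivity
  have harea := hAREA t J (kap r) c m ht hJc hJd (kap_unit r hr) hm0 ?_
  · -- m ^ 2 ≤ k
    have h16 : 4 ≤ I / (8 * C₀ * ε) := by
      rw [le_div_iff₀ (by positivity)]
      linarith
    have h1 : 4 * k ^ (1 + α) ≤ m := mul_le_mul_of_nonneg_right h16 hkr.le
    have h2 : (4 * k ^ (1 + α)) ^ 2 ≤ k := by
      refine le_trans ?_ harea
      exact pow_le_pow_left₀ (by positivity) h1 2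
    have h3 : (k ^ (1 + α)) ^ 2 = k * k ^ (1 + 2 * α) := by
      rw [← Real.rpow_natCast, ← Real.rpow_mul hkpos.le]
      have : (1 + α) * ((2 : ℕ) : ℝ) = 1 + (1 + 2 * α) := by push_cast; ring
      rw [this, Real.rpow_add hkpos, Real.rpow_one]
    have h4 : 16 * k ^ (1 + 2 * α) ≤ 1 := by
      have : k * (16 * k ^ (1 + 2 * α)) ≤ k * 1 := by
        calc k * (16 * k ^ (1 + 2 * α)) = (4 * k ^ (1 + α)) ^ 2 := by rw [mul_pow, h3]; ring
          _ ≤ k := h2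
          _ = k * 1 := by ring
      exact le_of_mul_le_mul_left this hkpos
    by_contra hcon
    rw [not_le] at hcon
    have h5 : (1 / 2 : ℝ) ^ (1 + 2 * α) < k ^ (1 + 2 * α) :=
      Real.rpow_lt_rpow (by norm_num) hcon (by linarith)
    have h6 : (1 / 2 : ℝ) ^ (3 : ℝ) ≤ (1 / 2 : ℝ) ^ (1 + 2 * α) :=
      Real.rpow_le_rpow_of_exponent_ge (by norm_num) (by norm_num) (by linarith)
    have h7 : (1 / 2 : ℝ) ^ (3 : ℝ) = 1 / 8 := by
      rw [show (3 : ℝ) = ((3 : ℕ) : ℝ) by norm_num, Real.rpow_natCast]; norm_num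
    rw [h7] at h6
    linarith
  · intro β hβ
    have hperp : kap r ⬝ᵥ β 0 = 0 := hβ.2
    have hp := pols r hr (β 0) hperp
    have r0 := hrel r (Or.inl rfl) β hβ
    have r1 := hrel (r + 1) (Or.inr rfl) β (by rw [kap_succ r hr]; exact hβ)
    rw [kap_succ r hr] at r1
    set a := nn (J t (β t)) with ha
    set b := nn (β 0) with hb
    have hb0 : 0 ≤ b := nn_nonneg _
    have ha0 : 0 ≤ a := nn_nonneg _
    -- max |pol| ≥ b / 2
    have hmax : b / 2 ≤ |pol r ⬝ᵥ β 0| ∨ b / 2 ≤ |pol (r + 1) ⬝ᵥ β 0| := by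
      by_contra hcon
      rw [not_or, not_le, not_le] at hcon
      have q0 : (pol r ⬝ᵥ β 0) ^ 2 < (b / 2) ^ 2 := by
        rw [← sq_abs (pol r ⬝ᵥ β 0)]
        exact pow_lt_pow_left₀ hcon.1 (abs_nonneg _) two_ne_zero
      have q1 : (pol (r + 1) ⬝ᵥ β 0) ^ 2 < (b / 2) ^ 2 := by
        rw [← sq_abs (pol (r + 1) ⬝ᵥ β 0)]
        exact pow_lt_pow_left₀ hcon.2 (abs_nonneg _) two_ne_zero
      nlinarith
    have hmain : (1 / 4) * b * I ≤ C₀ * ε * (b + a * k ^ (-(1 + α))) := by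
      rcases hmax with h | h
      · refine le_trans ?_ r0
        nlinarith
      · refine le_trans ?_ r1
        nlinarith
    have h8 : C₀ * ε * b ≤ I / 32 * b := mul_le_mul_of_nonneg_right (by linarith) hb0
    have h9 : (1 / 8) * b * I ≤ C₀ * ε * (a * k ^ (-(1 + α))) := by nlinarith
    have h10 : k ^ (-(1 + α)) = (k ^ (1 + α))⁻¹ := Real.rpow_neg hkpos.le _
    rw [h10] at h9
    rw [hm]
    have h11 : (1 / 8) * b * I * k ^ (1 + α) ≤ C₀ * ε * a := by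
      have := mul_le_mul_of_nonneg_right h9 hkr.le
      calc (1 / 8) * b * I * k ^ (1 + α) ≤ C₀ * ε * (a * (k ^ (1 + α))⁻¹) * k ^ (1 + α) := this
        _ = C₀ * ε * a := by field_simp
    have h12 : I / (8 * C₀ * ε) * k ^ (1 + α) * b = ((1 / 8) * b * I * k ^ (1 + α)) / (C₀ * ε) := by
      field_simp
    rw [h12, div_le_iff₀ (by positivity)]
    linarith

theorem torus_main (hCOF : G_COF) (hAREA : G_AREA) (hLIN : G_LIN)
    (hCONTRA : G_CONTRA) (hBUMP : G_BUMP) (hLAGT : G_LAGT) (hV0 : G_V0) (hRELA : G_RELA)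
    (hEXACT : G_EXACT) (α : ℝ) (hα : 0 < α) (hα1 : α < 1) :
    ∃ v₀ : E → E, IsVelocity α v₀ ∧ ∃ r : ℝ, 0 < r ∧ ∀ t : ℝ, 0 < t → ∀ u : ℝ → E → E,
      IsEulerSolution α t u → Close α r (u 0) v₀ → ¬ Close α r (u t) v₀ := by
  obtain ⟨η, hη⟩ := hBUMP
  obtain ⟨N, hN4, hN⟩ : ∃ N : ℕ, 4 ≤ N ∧ 4 ≤ (N : ℝ) ^ α := by
    have h := (tendsto_rpow_atTop hα).comp tendsto_natCast_atTop_atTop
    have h2 := h.eventually_ge_atTop 4
    obtain ⟨N, hN⟩ := (h2.and (Filter.eventually_ge_atTop 4)).exists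
    exact ⟨N, hN.2, hN.1⟩
  obtain ⟨hv, hcP, hcQ⟩ := hV0 α N hα hα1 hN hN4
  obtain ⟨C₀, hC₀, hrela⟩ := hRELA α N η hα hα1 hN hN4 hη
  obtain ⟨ε₀, hε₀, hexact⟩ := hEXACT α N η hα hα1 hN hN4 hη
  have hI : 0 < ∫ Y, η Y := hη.2.2
  set I := ∫ Y, η Y with hIdef
  set ε := min (min ε₀ (1 / 8)) (I / (32 * C₀)) with hεdef
  have hε : 0 < ε := by
    apply lt_min (lt_min hε₀ (by norm_num))
    positivity
  have hε1 : ε ≤ 1 / 8 := (min_le_left _ _).trans (min_le_right _ _)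
  have hεε₀ : ε ≤ ε₀ := (min_le_left _ _).trans (min_le_left _ _)
  have hεI : 32 * C₀ * ε ≤ I := by
    have : ε ≤ I / (32 * C₀) := min_le_right _ _
    rw [le_div_iff₀ (by positivity)] at this
    linarith
  refine ⟨v0 α N, hv, ε, hε, ?_⟩
  intro t ht u hu h0 h1
  obtain ⟨K, g, p, φ, J, hL⟩ := hLAGT α t u hα hα1 ht.le hu
  have h00 : (0 : ℝ) ∈ Icc (0 : ℝ) t := ⟨le_rfl, ht.le⟩
  have htt : t ∈ Icc (0 : ℝ) t := ⟨ht.le, le_rfl⟩
  have H0 := hol_of_close (hu.1 0 h00).1 hv.1 h0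
  have H1 := hol_of_close (hu.1 t htt).1 hv.1 h1
  have hJX : ∀ X, ContinuousOn (fun s => J s X) (Icc 0 t) := by
    intro X
    exact hL.jcont.comp (f := fun s : ℝ => ((s, X) : ℝ × E)) (by fun_prop)
      (fun s hs => ⟨hs, mem_univ _⟩)
  -- step A: the deformation gradient at time t is the identity
  have hid : ∀ X, J t X = ContinuousLinearMap.id ℝ E := by
    intro X
    apply hLIN (J t X) (hL.jdet X t htt)
    intro d hd
    obtain ⟨r, hr, hrd⟩ := dir_cases d hd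
    have hk : (nn d)⁻¹ • d = kap r := by rw [kap, hrd]
    rw [hk]
    by_cases ha : trn (J t X) (kap r) = kap r
    · exact Or.inl ha
    by_cases hb : trn (J t X) (kap r) = -kap r
    · exact Or.inr (Or.inl hb)
    right; right
    refine stepA hAREA hCOF hα hI hC₀ ht.le (J := fun s => J s X) (hJX X) (hL.jdet X) hε hεI r hr
      (kap r ⬝ᵥ curlL (fderiv ℝ (u 0) X)) ?_ hα1
    intro q hq β hβ
    have hqr : kap q = kap r := by
      rcases hq with rfl | rfl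
      · rfl
      · exact kap_succ r hr
    refine hrela t K u g p φ J ht.le hL ε hε.le (by linarith) H0 H1 X q β ?_ ?_ ?_
    · rw [hqr] at hβ ⊢
      exact hβ
    · rw [hqr]; exact ha
    · rw [hqr]; exact hb
  -- step B
  have hH0' : ∀ i, Hol α ε₀ (fun z => u 0 z i - v0 α N z i) := by
    intro i
    refine ⟨(H0 i).1, fun x y j => ((H0 i).2 x y j).trans ?_⟩
    exact mul_le_mul_of_nonneg_right hεε₀ (Real.rpow_nonneg (norm_nonneg _) _)
  have hex := hexact t K u g p φ J ht.le hL hH0' hid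
  have hcd : ContDiff ℝ 1 (u 0) := contDiff_pi.2 (hu.1 0 h00).1
  have hcdv : ContDiff ℝ 1 (v0 α N) := contDiff_pi.2 hv.1
  have hcurl : ∀ v : E → E, ContDiff ℝ 1 v → ∀ x, curlL (fderiv ℝ v x) 2 =
      pd 0 (fun z => v z 1) x - pd 1 (fun z => v z 0) x := by
    intro v hvv x
    have hd : DifferentiableAt ℝ v x := hvv.differentiable one_ne_zero x
    have h1 : ∀ i j, pd j (fun z => v z i) x = fderiv ℝ v x (Pi.single j 1) i := by
      intro i j
      unfold pd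
      rw [fderiv_pi (fun k => (hasFDerivAt_pi'.1 hd.hasFDerivAt k).differentiableAt)] 
      rfl
    rw [h1, h1]
    rfl
  have hc : Continuous (fun X => ee 2 ⬝ᵥ curlL (fderiv ℝ (u 0) X)) := by
    have h1 : (fun X => ee 2 ⬝ᵥ curlL (fderiv ℝ (u 0) X)) = fun X =>
        pd 0 (fun z => u 0 z 1) X - pd 1 (fun z => u 0 z 0) X := by
      funext X
      rw [← hcurl (u 0) hcd X, dotE]
      simp [ee]
    rw [h1]
    unfold pd
    exact (((hu.1 0 h00).1 1).continuous_fderiv one_ne_zero |>.clm_apply continuous_const).sub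
      (((hu.1 0 h00).1 0).continuous_fderiv one_ne_zero |>.clm_apply continuous_const)
  have hcc : ∀ X, |(ee 2 ⬝ᵥ curlL (fderiv ℝ (u 0) X)) - curlL (fderiv ℝ (v0 α N) X) 2| ≤ 1 / 4 := by
    intro X
    have h1 : ee 2 ⬝ᵥ curlL (fderiv ℝ (u 0) X) = curlL (fderiv ℝ (u 0) X) 2 := by
      rw [dotE]; simp [ee]
    rw [h1, hcurl (u 0) hcd X, hcurl (v0 α N) hcdv X]
    have a1 := ((h0 1 X).2 0).1
    have a2 := ((h0 0 X).2 1).1
    rw [abs_le] at a1 a2 ⊢
    constructor <;> linarith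
  refine hCONTRA t J (ee 2) (fun X => ee 2 ⬝ᵥ curlL (fderiv ℝ (u 0) X)) ![Real.pi / 2, 0, 0]
    ![-(Real.pi / 2), 0, 0] ht hL.jcont hL.jdet (by rw [dotE]; simp [ee]) hc ?_ ?_ hex
  · have := hcc ![Real.pi / 2, 0, 0]
    rw [abs_le] at this
    show (ee 2 ⬝ᵥ curlL (fderiv ℝ (u 0) ![Real.pi / 2, 0, 0])) < 0
    linarith [this.2]
  · have := hcc ![-(Real.pi / 2), 0, 0]
    rw [abs_le] at this
    show 0 < (ee 2 ⬝ᵥ curlL (fderiv ℝ (u 0) ![-(Real.pi / 2), 0, 0]))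
    linarith [this.1]

end Pool.Agent.Helper75.Torus
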