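import Pool.Agent.Helper75.Torus.Defs
import Pool.Agent.Helper75.Slab.FlowGoals

set_option autoImplicit false

/-!
# Wandering Euler flows on the torus: goals
-/

open Set MeasureTheory Matrix

namespace Pool.Agent.Helper75.Torus

open Pool.Agent.Helper75.Flow (LipField IsFlow IsJac EulerOn curlL G_FL1 G_FL2 G_FL3 G_FD G_DET G_AJ
  G_VORT)

/-! ## Linear algebra in three-space -/

/-- the unit vectors -/
noncomputable def ee (i : Fin 3) : E := Pi.single i 1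

/-- Euclidean norm -/
noncomputable def nn (v : E) : ℝ := Real.sqrt (v ⬝ᵥ v)

/-- transpose of `J` -/
noncomputable def trn (J : E →L[ℝ] E) (z : E) : E := fun i => z ⬝ᵥ J (ee i)

/-- cofactor matrix of `J` (the inverse transpose when `det J = 1`) -/
noncomputable def cofv (J : E →L[ℝ] E) (κ : E) : E :=
  κ 0 • crossProduct (J (ee 1)) (J (ee 2)) + κ 1 • crossProduct (J (ee 2)) (J (ee 0)) +
    κ 2 • crossProduct (J (ee 0)) (J (ee 1))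

/-- inverse of `J` when `det J = 1` -/
noncomputable def inv3 (J : E →L[ℝ] E) (z : E) : E := fun i => cofv J (ee i) ⬝ᵥ z

/-- algebra of the cofactor matrix -/
def G_COF : Prop :=
  ∀ J : E →L[ℝ] E, J.det = 1 →
    (∀ κ Y : E, cofv J κ ⬝ᵥ J Y = κ ⬝ᵥ Y) ∧
    (∀ a b : E, crossProduct (J a) (J b) = cofv J (crossProduct a b)) ∧
    (∀ z : E, J (inv3 J z) = z) ∧ (∀ z : E, inv3 J (J z) = z) ∧
    (∀ κ : E, trn J (cofv J κ) = κ) ∧ (∀ κ : E, cofv J (trn J κ) = κ) ∧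
    (∀ a b : E, trn J a ⬝ᵥ b = a ⬝ᵥ J b) ∧ (∀ κ : E, κ ≠ 0 → 0 < nn (cofv J κ))

/-- right-hand side of the amplitude equation -/
noncomputable def bRHS (c : ℝ) (J : E →L[ℝ] E) (κ b : E) : E :=
  (-(c / (cofv J κ ⬝ᵥ cofv J κ))) • crossProduct κ (trn J (J b))

/-- the amplitude equation -/
def G_ALG : Prop :=
  ∀ (J : E →L[ℝ] E) (κ om b : E), J.det = 1 → κ ⬝ᵥ κ = 1 → κ ⬝ᵥ b = 0 →
    trn J (J (bRHS (κ ⬝ᵥ om) J κ b)) + crossProduct om b =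
      (κ ⬝ᵥ (trn J (J (bRHS (κ ⬝ᵥ om) J κ b)) + crossProduct om b)) • κ

/-- a solution of the amplitude equation -/
def IsBeta (t : ℝ) (J : ℝ → E →L[ℝ] E) (κ : E) (c : ℝ) (β : ℝ → E) : Prop :=
  (∀ s ∈ Icc 0 t, HasDerivWithinAt β (bRHS c (J s) κ (β s)) (Icc 0 t) s) ∧ κ ⬝ᵥ β 0 = 0

def G_BETA1 : Prop :=
  ∀ (t : ℝ) (J : ℝ → E →L[ℝ] E) (κ b : E) (c : ℝ), 0 ≤ t → ContinuousOn J (Icc 0 t) →
    (∀ s ∈ Icc 0 t, (J s).det = 1) → κ ⬝ᵥ κ = 1 → κ ⬝ᵥ b = 0 → ∃ β, IsBeta t J κ c β ∧ β 0 = b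

def G_BETA2 : Prop :=
  ∀ (t : ℝ) (J : ℝ → E →L[ℝ] E) (κ : E) (c : ℝ) (β β' : ℝ → E), 0 ≤ t →
    ContinuousOn J (Icc 0 t) → (∀ s ∈ Icc 0 t, (J s).det = 1) → κ ⬝ᵥ κ = 1 →
    IsBeta t J κ c β → IsBeta t J κ c β' →
    ∀ s ∈ Icc 0 t, κ ⬝ᵥ β s = 0 ∧ κ ⬝ᵥ crossProduct (β s) (β' s) = κ ⬝ᵥ crossProduct (β 0) (β' 0)

/-- area estimate: if all amplitudes grow at least by the factor `m`, then `k_t` has length at
least `m ^ 2` -/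
def G_AREA : Prop :=
  ∀ (t : ℝ) (J : ℝ → E →L[ℝ] E) (κ : E) (c m : ℝ), 0 ≤ t → ContinuousOn J (Icc 0 t) →
    (∀ s ∈ Icc 0 t, (J s).det = 1) → κ ⬝ᵥ κ = 1 → 0 ≤ m →
    (∀ β, IsBeta t J κ c β → m * nn (β 0) ≤ nn (J t (β t))) → m ^ 2 ≤ nn (cofv (J t) κ)

/-- rigidity: a matrix of determinant one which in four directions is either the identity or
strongly contracting (for the inverse transpose) is the identity -/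
def G_LIN : Prop :=
  ∀ J : E →L[ℝ] E, J.det = 1 →
    (∀ d : E, (d = ee 0 ∨ d = ee 1 ∨ d = ee 2 ∨ d = ee 0 + ee 1 + ee 2) →
      trn J ((nn d)⁻¹ • d) = (nn d)⁻¹ • d ∨ trn J ((nn d)⁻¹ • d) = -((nn d)⁻¹ • d) ∨
        nn (cofv J ((nn d)⁻¹ • d)) ≤ 1 / 2) →
    J = ContinuousLinearMap.id ℝ E

/-- a map with derivative the identity is a translation -/
def G_TRANS : Prop :=
  ∀ φ : E → E, (∀ X, HasFDerivAt φ (ContinuousLinearMap.id ℝ E) X) → ∃ b : E, ∀ X, φ X = X + b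

/-- the rotation of the amplitudes has a strict sign -/
def G_CONTRA : Prop :=
  ∀ (t : ℝ) (J : ℝ → E → E →L[ℝ] E) (κ : E) (c : E → ℝ) (P Q : E), 0 < t →
    ContinuousOn (fun z : ℝ × E => J z.1 z.2) (Icc 0 t ×ˢ univ) →
    (∀ X, ∀ s ∈ Icc 0 t, (J s X).det = 1) → κ ⬝ᵥ κ = 1 → Continuous c → c P < 0 → 0 < c Q →
    (∀ X β, IsBeta t (fun s => J s X) κ (c X) β → β t = β 0) → False

/-! ## Hölder classes and test fields -/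

/-- functions of class `C^1` whose derivatives are Hölder with constant `H` -/
def Hol (α H : ℝ) (f : E → ℝ) : Prop :=
  ContDiff ℝ 1 f ∧ ∀ x y j, |pd j f x - pd j f y| ≤ H * ‖x - y‖ ^ α

/-- vanishing 1-jet at the origin -/
def Jet0 (f : E → ℝ) : Prop := f 0 = 0 ∧ ∀ j, pd j f 0 = 0

/-- admissible cutoff function -/
def Bump (η : E → ℝ) : Prop := ContDiff ℝ 4 η ∧ HasCompactSupport η ∧ 0 < ∫ Y, η Y

def G_BUMP : Prop := ∃ η : E → ℝ, Bump η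

/-- the cutoff `θ_δ`; note that `∫ θ_δ cos(κ·Y + τ) = 0` -/
noncomputable def th (η : E → ℝ) (κ : E) (δ : ℝ) (Y : E) : ℝ :=
  (η (δ • Y) + η (δ • (Y + Real.pi • κ))) / 2

/-- gradient of the cutoff -/
noncomputable def gth (η : E → ℝ) (κ : E) (δ : ℝ) (Y : E) : E := fun j => pd j (th η κ δ) Y

/-- vector potential of the test field -/
noncomputable def Qf (η : E → ℝ) (κ : E) (δ τ : ℝ) (b : E) (Y : E) : E :=
  (-(th η κ δ Y * Real.sin (κ ⬝ᵥ Y + τ))) • crossProduct κ b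

/-- the test field -/
noncomputable def Tf (η : E → ℝ) (κ : E) (δ τ : ℝ) (b : E) (Y : E) : E :=
  curlL (fderiv ℝ (Qf η κ δ τ b) Y)

/-- properties of the test field: support, smoothness, formulas -/
def G_T1A : Prop :=
  ∀ (η : E → ℝ) (κ : E), Bump η → κ ⬝ᵥ κ = 1 →
    (∃ R : ℝ, ∀ δ ∈ Ioc (0 : ℝ) 1, ∀ (τ : ℝ) (b Y : E), R / δ ≤ ‖Y‖ → Tf η κ δ τ b Y = 0 ∧
      fderiv ℝ (Tf η κ δ τ b) Y = 0 ∧ th η κ δ Y = 0 ∧ gth η κ δ Y = 0 ∧ Qf η κ δ τ b Y = 0) ∧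
    ∀ δ ∈ Ioc (0 : ℝ) 1, ∀ τ : ℝ,
      (∀ b, ContDiff ℝ 2 (Tf η κ δ τ b) ∧ HasCompactSupport (Tf η κ δ τ b) ∧
        ContDiff ℝ 3 (Qf η κ δ τ b) ∧ HasCompactSupport (Qf η κ δ τ b)) ∧
      ContDiff ℝ 3 (th η κ δ) ∧ HasCompactSupport (th η κ δ) ∧
      (∀ b Y, Tf η κ δ τ b Y = ∑ l, b l • Tf η κ δ τ (ee l) Y) ∧
      (∀ b Y, κ ⬝ᵥ b = 0 → Tf η κ δ τ b Y = (th η κ δ Y * Real.cos (κ ⬝ᵥ Y + τ)) • b -
        Real.sin (κ ⬝ᵥ Y + τ) • crossProduct (gth η κ δ Y) (crossProduct κ b)) ∧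
      ∀ Y, gth η κ δ Y = fun j => δ / 2 * (pd j η (δ • Y) + pd j η (δ • (Y + Real.pi • κ)))

/-- properties of the test field: divergence-free, vanishing moments of order 0 and 1 -/
def G_T1B : Prop :=
  ∀ (η : E → ℝ) (κ : E), Bump η → κ ⬝ᵥ κ = 1 → ∀ δ ∈ Ioc (0 : ℝ) 1, ∀ (τ : ℝ) (b : E),
    (∀ Y, ∑ i, fderiv ℝ (Tf η κ δ τ b) Y (ee i) i = 0) ∧
    (∀ i, ∫ Y, Tf η κ δ τ b Y i = 0) ∧ ∀ i j, ∫ Y : E, Y j * Tf η κ δ τ b Y i = 0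

/-! ## Oscillatory integrals -/

/-- functions with vanishing 1-jet and Hölder gradient against oscillations -/
def G_OSC : Prop :=
  ∀ (α : ℝ) (g : E → ℝ) (κ : E), 0 < α → α < 1 → ContDiff ℝ 2 g → HasCompactSupport g →
    κ ⬝ᵥ κ = 1 → ∃ C : ℝ, 0 ≤ C ∧ ∀ (H : ℝ) (W : E → ℝ), 0 ≤ H → Hol α H W → Jet0 W →
      ∀ δ ∈ Ioc (0 : ℝ) 1, ∀ (τ : ℝ) (q : E), ‖q‖ ≤ 4 →
        |δ ^ 3 * ∫ Y, W Y * g (δ • (Y + q)) * Real.cos (κ ⬝ᵥ Y + τ)| ≤ C * H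

/-- pure oscillations against a slowly varying cutoff -/
def G_RL : Prop :=
  ∀ g : E → ℝ, ContDiff ℝ 1 g → HasCompactSupport g → ∃ C : ℝ, 0 ≤ C ∧
    ∀ (k a : E) (δ σ : ℝ), k ≠ 0 → 0 < δ →
      |δ ^ 3 * ∫ Y, g (δ • (Y + a)) * Real.cos (k ⬝ᵥ Y + σ)| ≤ C * δ / nn k

/-! ## The Lagrangian data of a solution -/

structure Lag (α t K : ℝ) (u g : ℝ → E → E) (p : ℝ → E → ℝ) (φ : ℝ → E → E)
    (J : ℝ → E → E →L[ℝ] E) : Prop where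
  euler : EulerOn t K u g univ
  pres : ∀ s ∈ Icc 0 t, Differentiable ℝ (p s) ∧ ∀ x j, pd j (p s) x = g s x j
  hol : ∀ s ∈ Icc 0 t, ∀ i, Hol α K (fun x => u s x i)
  flow : IsFlow t u φ
  jac : IsJac t u φ univ J
  jcont : ContinuousOn (fun z : ℝ × E => J z.1 z.2) (Icc 0 t ×ˢ univ)
  jdet : ∀ X, ∀ s ∈ Icc 0 t, (J s X).det = 1
  vort : ∀ X, ∀ s ∈ Icc 0 t,
    curlL (fderiv ℝ (u s) (φ s X)) = J s X (curlL (fderiv ℝ (u 0) X))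

def G_CONVT : Prop :=
  ∀ (α t : ℝ) (u : ℝ → E → E), 0 < α → α < 1 → 0 ≤ t → IsEulerSolution α t u →
    ∃ (K : ℝ) (g : ℝ → E → E) (p : ℝ → E → ℝ), EulerOn t K u g univ ∧
      (∀ s ∈ Icc 0 t, Differentiable ℝ (p s) ∧ ∀ x j, pd j (p s) x = g s x j) ∧
      ∀ s ∈ Icc 0 t, ∀ i, Hol α K (fun x => u s x i)

def G_LAGT : Prop :=
  ∀ (α t : ℝ) (u : ℝ → E → E), 0 < α → α < 1 → 0 ≤ t → IsEulerSolution α t u →
    ∃ K g p φ J, Lag α t K u g p φ J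

/-! ## Evolution of the pairings -/

/-- `v` around `x` at scale `lam⁻¹`, in the coordinates `Y`, minus its 1-jet -/
noncomputable def wr (v : E → E) (x : E) (lam : ℝ) (J : E →L[ℝ] E) (Y : E) : E :=
  v (x + lam⁻¹ • J Y) - v x - lam⁻¹ • fderiv ℝ v x (J Y)

/-- evolution of the pairing with a fixed test field -/
def G_EV : Prop :=
  ∀ (α t K : ℝ) (u g : ℝ → E → E) (p : ℝ → E → ℝ) (φ : ℝ → E → E) (J : ℝ → E → E →L[ℝ] E),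
    0 ≤ t → Lag α t K u g p φ J → ∀ (X : E) (lam : ℝ) (ψ : E → E), 0 < lam → ContDiff ℝ 1 ψ →
    HasCompactSupport ψ → (∀ Y, ∑ i, fderiv ℝ ψ Y (ee i) i = 0) → (∀ i, ∫ Y, ψ Y i = 0) →
    (∀ i j, ∫ Y : E, Y j * ψ Y i = 0) → ∀ s ∈ Icc 0 t,
    HasDerivWithinAt (fun s => ∫ Y, u s (φ s X + lam⁻¹ • J s X Y) ⬝ᵥ J s X (ψ Y))
      (∫ Y, ((trn (fderiv ℝ (u s) (φ s X)) (wr (u s) (φ s X) lam (J s X) Y) -
          fderiv ℝ (u s) (φ s X) (wr (u s) (φ s X) lam (J s X) Y)) ⬝ᵥ J s X (ψ Y) +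
        lam * (wr (u s) (φ s X) lam (J s X) Y ⬝ᵥ
          J s X (fderiv ℝ ψ Y (inv3 (J s X) (wr (u s) (φ s X) lam (J s X) Y))))))
      (Icc 0 t) s

/-- time derivative of the pairing, for the amplitude `b` with derivative `b'` -/
noncomputable def rhs (η : E → ℝ) (v : E → E) (x om κ : E) (J : E →L[ℝ] E) (lam δ τ : ℝ)
    (b b' : E) : ℝ :=
  ∫ Y, (-(Real.sin (κ ⬝ᵥ Y + τ) * (inv3 J (wr v x lam J Y) ⬝ᵥ
      ((κ ⬝ᵥ (trn J (J b') + crossProduct om b)) • gth η κ δ Y +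
        trn J (J (crossProduct (gth η κ δ Y) (crossProduct κ b'))) +
        crossProduct om (crossProduct (gth η κ δ Y) (crossProduct κ b))))) +
    lam * (wr v x lam J Y ⬝ᵥ J (fderiv ℝ (Tf η κ δ τ b) Y (inv3 J (wr v x lam J Y)))))

/-- evolution of the pairing with the test field of the moving amplitude -/
def G_EVD : Prop :=
  ∀ (α t K : ℝ) (u g : ℝ → E → E) (p : ℝ → E → ℝ) (φ : ℝ → E → E) (J : ℝ → E → E →L[ℝ] E)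
    (η : E → ℝ), 0 ≤ t → Lag α t K u g p φ J → Bump η → ∀ (X κ : E) (lam δ τ : ℝ) (β : ℝ → E),
    κ ⬝ᵥ κ = 1 → 0 < lam → δ ∈ Ioc (0 : ℝ) 1 →
    IsBeta t (fun s => J s X) κ (κ ⬝ᵥ curlL (fderiv ℝ (u 0) X)) β → ∀ s ∈ Icc 0 t,
    HasDerivWithinAt
      (fun s => ∫ Y, u s (φ s X + lam⁻¹ • J s X Y) ⬝ᵥ J s X (Tf η κ δ τ (β s) Y))
      (rhs η (u s) (φ s X) (curlL (fderiv ℝ (u 0) X)) κ (J s X) lam δ τ (β s)
        (bRHS (κ ⬝ᵥ curlL (fderiv ℝ (u 0) X)) (J s X) κ (β s))) (Icc 0 t) s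

/-- static bound of the time derivative -/
def G_EVB : Prop :=
  ∀ (α : ℝ) (η : E → ℝ) (κ : E) (K B : ℝ), 0 < α → α < 1 → Bump η → κ ⬝ᵥ κ = 1 → 0 ≤ K → 0 ≤ B →
    ∃ C : ℝ, ∀ δ ∈ Ioc (0 : ℝ) 1, ∃ D : ℝ, ∀ (v : E → E) (x om b b' : E) (J : E →L[ℝ] E)
      (lam τ : ℝ), (∀ i, Hol α K (fun z => v z i)) → J.det = 1 → ‖J‖ ≤ B → ‖om‖ ≤ B → ‖b‖ ≤ B →
      ‖b'‖ ≤ B → 1 ≤ lam →
      |δ ^ 3 * lam ^ (1 + α) * rhs η v x om κ J lam δ τ b b'| ≤ C * δ + D * lam ^ (-α)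

/-- the normalised pairing -/
noncomputable def pair (α : ℝ) (η : E → ℝ) (v : E → E) (x : E) (lam : ℝ) (J : E →L[ℝ] E) (κ : E)
    (δ τ : ℝ) (b : E) : ℝ :=
  δ ^ 3 * lam ^ (1 + α) * ∫ Y, v (x + lam⁻¹ • J Y) ⬝ᵥ J (Tf η κ δ τ b Y)

/-- the pairing is almost conserved -/
def G_EVO : Prop :=
  ∀ (α t K : ℝ) (u g : ℝ → E → E) (p : ℝ → E → ℝ) (φ : ℝ → E → E) (J : ℝ → E → E →L[ℝ] E)
    (η : E → ℝ), 0 < α → α < 1 → 0 ≤ t → Lag α t K u g p φ J → Bump η →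
    ∀ (X κ : E) (β : ℝ → E), κ ⬝ᵥ κ = 1 →
    IsBeta t (fun s => J s X) κ (κ ⬝ᵥ curlL (fderiv ℝ (u 0) X)) β →
    ∃ C : ℝ, ∀ δ ∈ Ioc (0 : ℝ) 1, ∃ D : ℝ, ∀ lam ≥ (1 : ℝ), ∀ τ : ℝ,
      |pair α η (u t) (φ t X) lam (J t X) κ δ τ (β t) -
        pair α η (u 0) X lam (ContinuousLinearMap.id ℝ E) κ δ τ (β 0)| ≤
      C * δ + D * lam ^ (-α)

/-- effect of a perturbation which is small in `C^{1,α}` -/
def G_PB : Prop :=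
  ∀ (α : ℝ) (η : E → ℝ), 0 < α → α < 1 → Bump η → ∃ C₀ : ℝ, 0 < C₀ ∧
    ∀ (κ b : E) (J : E →L[ℝ] E), κ ⬝ᵥ κ = 1 → κ ⬝ᵥ b = 0 → J.det = 1 → ∀ ρ : ℝ, 0 < ρ →
    ∃ δ₀ : ℝ, 0 < δ₀ ∧ ∀ δ ∈ Ioc (0 : ℝ) 1, δ ≤ δ₀ → ∀ (ε : ℝ) (r : E → E) (x : E) (lam τ : ℝ),
      0 ≤ ε → ε ≤ 1 → 0 < lam → (∀ i, Hol α ε (fun z => r z i)) →
      |pair α η r x lam J κ δ τ b| ≤ C₀ * ε * nn (J b) * (nn (cofv J κ)) ^ (-(1 + α)) + ρ

/-- at a translation by `b` with identity derivative, equal curls give equal pairings -/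
def G_CURLP : Prop :=
  ∀ (α : ℝ) (η : E → ℝ) (v w : E → E) (x x' κ b : E) (lam δ τ : ℝ), Bump η → κ ⬝ᵥ κ = 1 →
    0 < lam → δ ∈ Ioc (0 : ℝ) 1 → ContDiff ℝ 1 v → ContDiff ℝ 1 w →
    (∀ y, curlL (fderiv ℝ v (x + y)) = curlL (fderiv ℝ w (x' + y))) →
    pair α η v x lam (ContinuousLinearMap.id ℝ E) κ δ τ b =
      pair α η w x' lam (ContinuousLinearMap.id ℝ E) κ δ τ b

/-! ## The initial velocity -/

/-- wave directions of the eight classes -/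
def dir (n : ℕ) : E :=
  match n % 8 with
  | 0 => ![1, 0, 0]
  | 1 => ![1, 0, 0]
  | 2 => ![0, 1, 0]
  | 3 => ![0, 1, 0]
  | 4 => ![0, 0, 1]
  | 5 => ![0, 0, 1]
  | _ => ![1, 1, 1]

/-- polarizations of the eight classes -/
noncomputable def pol (n : ℕ) : E :=
  match n % 8 with
  | 0 => ![0, 1, 0]
  | 1 => ![0, 0, 1]
  | 2 => ![1, 0, 0]
  | 3 => ![0, 0, 1]
  | 4 => ![1, 0, 0]
  | 5 => ![0, 1, 0]
  | 6 => ![1 / Real.sqrt 2, -(1 / Real.sqrt 2), 0]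
  | _ => ![1 / Real.sqrt 6, 1 / Real.sqrt 6, -(2 / Real.sqrt 6)]

/-- unit wave directions -/
noncomputable def kap (n : ℕ) : E := (nn (dir n))⁻¹ • dir n

/-- wave vectors -/
noncomputable def xi (N n : ℕ) : E := ((N : ℝ) ^ (n ^ 2)) • dir n

/-- their lengths -/
noncomputable def lamn (N n : ℕ) : ℝ := (N : ℝ) ^ (n ^ 2) * nn (dir n)

/-- the `n`-th wave -/
noncomputable def term (α : ℝ) (N n : ℕ) (x : E) : E :=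
  ((lamn N n) ^ (-(1 + α)) * Real.cos (xi N n ⬝ᵥ x)) • pol n

/-- the initial velocity -/
noncomputable def v0 (α : ℝ) (N : ℕ) (x : E) : E := ∑' n, term α N n x

/-- the initial velocity is in the phase space, and its vorticity changes sign -/
def G_V0 : Prop :=
  ∀ (α : ℝ) (N : ℕ), 0 < α → α < 1 → 4 ≤ (N : ℝ) ^ α → 4 ≤ N →
    IsVelocity α (v0 α N) ∧
    curlL (fderiv ℝ (v0 α N) ![Real.pi / 2, 0, 0]) 2 ≤ -(1 / 2) ∧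
    1 / 2 ≤ curlL (fderiv ℝ (v0 α N) ![-(Real.pi / 2), 0, 0]) 2

/-- the other waves are invisible at the scale of the `m`-th wave -/
def G_SGN : Prop :=
  ∀ (α : ℝ) (N : ℕ) (η : E → ℝ), 0 < α → α < 1 → 4 ≤ (N : ℝ) ^ α → 4 ≤ N → Bump η →
    ∀ (κ b : E) (J : E →L[ℝ] E) (δ ρ : ℝ), κ ⬝ᵥ κ = 1 → δ ∈ Ioc (0 : ℝ) 1 → 0 < ρ →
    ∃ m₀ : ℕ, ∀ m ≥ m₀, ∀ (x : E) (τ : ℝ),
      |pair α η (fun y => v0 α N y - term α N m y) x (lamn N m) J κ δ τ b| ≤ ρ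

/-- the `m`-th wave at the initial time -/
def G_SGI : Prop :=
  ∀ (α : ℝ) (N : ℕ) (η : E → ℝ), 0 < α → α < 1 → 4 ≤ N → Bump η →
    ∀ (b : E) (r : ℕ) (ρ : ℝ), kap r ⬝ᵥ b = 0 → 0 < ρ → ∃ δ₀ : ℝ, 0 < δ₀ ∧
      ∀ δ ∈ Ioc (0 : ℝ) 1, δ ≤ δ₀ → ∀ (m : ℕ) (x : E), m % 8 = r % 8 →
      |pair α η (term α N m) x (lamn N m) (ContinuousLinearMap.id ℝ E) (kap r) δ
        (xi N m ⬝ᵥ x) b - (1 / 2) * (pol r ⬝ᵥ b) * ∫ Y, η Y| ≤ ρ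

/-- the `m`-th wave at a later time, when its direction has changed -/
def G_SGT : Prop :=
  ∀ (α : ℝ) (N : ℕ) (η : E → ℝ), 0 < α → α < 1 → 4 ≤ N → Bump η →
    ∀ (b : E) (J : E →L[ℝ] E) (r : ℕ) (ρ : ℝ), 0 < ρ → trn J (kap r) ≠ kap r →
      trn J (kap r) ≠ -kap r → ∃ δ₀ : ℝ, 0 < δ₀ ∧
      ∀ δ ∈ Ioc (0 : ℝ) 1, δ ≤ δ₀ → ∀ (m : ℕ) (x : E) (τ : ℝ), m % 8 = r % 8 →
      |pair α η (term α N m) x (lamn N m) J (kap r) δ τ b| ≤ ρ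

/-! ## The two consequences -/

/-- if the direction has changed then the amplitude is large -/
def G_RELA : Prop :=
  ∀ (α : ℝ) (N : ℕ) (η : E → ℝ), 0 < α → α < 1 → 4 ≤ (N : ℝ) ^ α → 4 ≤ N → Bump η →
    ∃ C₀ : ℝ, 0 < C₀ ∧ ∀ (t K : ℝ) (u g : ℝ → E → E) (p : ℝ → E → ℝ) (φ : ℝ → E → E)
      (J : ℝ → E → E →L[ℝ] E), 0 ≤ t → Lag α t K u g p φ J → ∀ ε : ℝ, 0 ≤ ε → ε ≤ 1 →
      (∀ i, Hol α ε (fun z => u 0 z i - v0 α N z i)) →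
      (∀ i, Hol α ε (fun z => u t z i - v0 α N z i)) →
      ∀ (X : E) (r : ℕ) (β : ℝ → E),
        IsBeta t (fun s => J s X) (kap r) (kap r ⬝ᵥ curlL (fderiv ℝ (u 0) X)) β →
        trn (J t X) (kap r) ≠ kap r → trn (J t X) (kap r) ≠ -kap r →
        (1 / 2) * |pol r ⬝ᵥ β 0| * ∫ Y, η Y ≤
          C₀ * ε * (nn (β 0) + nn (J t X (β t)) * (nn (cofv (J t X) (kap r))) ^ (-(1 + α)))

/-- if the flow map is a translation then the amplitudes return exactly -/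
def G_EXACT : Prop :=
  ∀ (α : ℝ) (N : ℕ) (η : E → ℝ), 0 < α → α < 1 → 4 ≤ (N : ℝ) ^ α → 4 ≤ N → Bump η →
    ∃ ε₀ : ℝ, 0 < ε₀ ∧ ∀ (t K : ℝ) (u g : ℝ → E → E) (p : ℝ → E → ℝ) (φ : ℝ → E → E)
      (J : ℝ → E → E →L[ℝ] E), 0 ≤ t → Lag α t K u g p φ J →
      (∀ i, Hol α ε₀ (fun z => u 0 z i - v0 α N z i)) →
      (∀ X, J t X = ContinuousLinearMap.id ℝ E) → ∀ (X : E) (β : ℝ → E),
        IsBeta t (fun s => J s X) (ee 2) (ee 2 ⬝ᵥ curlL (fderiv ℝ (u 0) X)) β → β t = β 0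

end Pool.Agent.Helper75.Torus
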